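import Pool.Agent.Results.MP_59f3ad_nt.AllPrimesUpToABound
import Pool.Agent.V11326.WI
import Pool.Agent.V11326.WCp
import Pool.Agent.V11326.WO1

/-!
# Leopoldt's conjecture at all small primes for ALL members of explicit families in typical windows

Let `P_1, ..., P_r` (`r ≥ 1`) be distinct monic polynomials with integral coefficients, each of them linear or quadratic
without real roots. For an integer `t` let `F_t = (X - t) P_1 ⋯ P_r - 1`. We say that `t` is good up to `y` if `F_t` is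
irreducible over `ℚ`, and the number field generated by one of its roots has exactly `1 + #{linear P_i}` real and
`#{quadratic P_i}` complex places and satisfies Leopoldt's conjecture, that is, Schneider's conjecture for `r = 1`, at all
primes `p ≤ y`, ramified or not.

Let `v_n ≥ 1` be a sequence with exponent of convergence at most `τ` (for example `v_n = 2 ^ n`, `τ = 0`), let `ρ ≥ 0`,
`θ < 1`, and let `c_n` be ARBITRARY integers (for instance `c_n = 0`, or much larger than `v_n`). For all real `α` outside a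
set of Hausdorff dimension at most `(2 ρ + τ) / (1 - θ)`, which has measure zero if `2 ρ + τ + θ < 1`, for all such
families `P` and all large `n`, ALL integers `t` with `|t - (c_n + α v_n)| ≤ v_n ^ θ` are good up to `v_n ^ ρ`. Countably many
sequences `c_n` are treated at once. If `τ = 0`, then for almost all `α` this holds for all `ρ`, `θ` with `2 ρ + θ < 1` at
once.

The proof combines the starting result `AllPrimesUpToABound` (at most `m y ^ 2 + C₀` of ALL integers `t` are not good up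
to `y`) with a covering argument.
-/

set_option autoImplicit false

namespace Pool.Agent.Results.MP_59f3ad_nt.AllMembersInWindows

open Polynomial NumberField IntermediateField Pool.Agent.W254.LF MeasureTheory Filter

/-- The exponent of convergence of the sequence `v` is at most `τ`: the sum of the `v_n ^ (-p)` converges for all
`p > τ`. -/
def ExpLe (v : ℕ → ℝ) (τ : ℝ) : Prop := ∀ p : ℝ, τ < p → Summable fun n => (v n) ^ (-p)

/-- The families considered: distinct monic polynomials with integral coefficients, each of them linear or quadratic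
without real roots. -/
def Family {r : ℕ} (P : Fin r → ℤ[X]) : Prop :=
  0 < r ∧ (∀ i, (P i).Monic) ∧ Function.Injective P ∧
    ∀ i, (P i).natDegree = 1 ∨ ((P i).natDegree = 2 ∧ ∀ x : ℝ, ((P i).map (Int.castRingHom ℝ)).eval x ≠ 0)

/-- `(X - t) P_1 ⋯ P_r - 1` is irreducible over `ℚ`, and the number field generated by a root has exactly
`1 + #{linear P_i}` real and `#{quadratic P_i}` complex places and satisfies Leopoldt's conjecture at all primes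
`p ≤ y`. -/
def Good {r : ℕ} (P : Fin r → ℤ[X]) (t : ℤ) (y : ℕ) : Prop :=
  Irreducible (((X - C t) * ∏ i, P i - 1 : ℤ[X]).map (Int.castRingHom ℚ)) ∧
    ∀ (K : Type) [Field K] [NumberField K] (θ : K),
      aeval θ ((X - C t) * ∏ i, P i - 1 : ℤ[X]) = 0 → ℚ⟮θ⟯ = ⊤ →
      InfinitePlace.nrRealPlaces K = 1 + (Finset.univ.filter fun i => (P i).natDegree = 1).card ∧
      InfinitePlace.nrComplexPlaces K = (Finset.univ.filter fun i => (P i).natDegree = 2).card ∧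
      ∀ (p : ℕ) [Fact p.Prime], p ≤ y → LeopoldtAt K p

theorem Good.mono {r : ℕ} {P : Fin r → ℤ[X]} {t : ℤ} {y y' : ℕ} (h : Good P t y) (hy : y' ≤ y) : Good P t y' := by
  refine ⟨h.1, fun K _ _ θ hθ hK => ?_⟩
  obtain ⟨h1, h2, h3⟩ := h.2 K θ hθ hK
  exact ⟨h1, h2, fun p _ hp => h3 p (hp.trans hy)⟩

theorem countable_families : Countable (Σ r : ℕ, (Fin r → ℤ[X])) := by
  have := Pool.Agent.V11326.WCp.poly_countable ℤ
  infer_instance

theorem windows (c : ℕ → ℕ → ℤ) (v : ℕ → ℝ) (τ ρ θ : ℝ) (hv1 : ∀ n, 1 ≤ v n) (hτ : 0 ≤ τ) (hv : ExpLe v τ)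
    (hρ : 0 ≤ ρ) (hθ : θ < 1) :
    ∃ F : Set ℝ, dimH F ≤ ENNReal.ofReal ((2 * ρ + τ) / (1 - θ)) ∧ (2 * ρ + τ + θ < 1 → volume F = 0) ∧
      ∀ α : ℝ, α ∉ F → ∀ (j r : ℕ) (P : Fin r → ℤ[X]), Family P → ∃ n₀ : ℕ, ∀ n : ℕ, n₀ ≤ n → ∀ t : ℤ,
        |(t : ℝ) - (c j n + α * v n)| ≤ (v n) ^ θ → Good P t ⌊(v n) ^ ρ⌋₊ := by
  have hone : ∀ q : (Σ r : ℕ, (Fin r → ℤ[X])), ∃ F : Set ℝ, dimH F ≤ ENNReal.ofReal ((2 * ρ + τ) / (1 - θ)) ∧
      (Family q.2 → ∀ α : ℝ, α ∉ F → ∀ j : ℕ, ∃ n₀ : ℕ, ∀ n : ℕ, n₀ ≤ n → ∀ t : ℤ,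
        |(t : ℝ) - (c j n + α * v n)| ≤ (v n) ^ θ → Good q.2 t ⌊(v n) ^ ρ⌋₊) := by
    rintro ⟨r, P⟩
    by_cases hP : Family P
    swap
    · refine ⟨∅, ?_, fun h => absurd h hP⟩
      rw [dimH_empty]
      exact zero_le
    obtain ⟨C₀, -, h2⟩ := AllPrimesUpToABound.result r P hP.1 hP.2.1 hP.2.2.1 hP.2.2.2
    choose E hE1 hE2 using h2
    obtain ⟨m, hm⟩ : ∃ m : ℕ, m = ∑ i, (P i).natDegree := ⟨_, rfl⟩
    rw [← hm] at hE1
    obtain ⟨F, hF, h⟩ := Pool.Agent.V11326.WI.windowsKC (E := ℝ)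
      (fun _ n => (E ⌊(v n) ^ ρ⌋₊ : Set ℤ)) (fun j n t => (t : ℝ) - c j n) (s := 2 * ρ) hv1 hτ hv (by positivity) hθ (by
        intro j A ε hε
        refine ⟨(m : ℝ) + C₀, 0, fun n _ => ?_⟩
        have hn1 := hv1 n
        have hn0 : 0 ≤ v n := by linarith
        have hsub : {t : ℤ | t ∈ (E ⌊(v n) ^ ρ⌋₊ : Set ℤ) ∧ ‖(t : ℝ) - c j n‖ ≤ ((A : ℝ) + 1) * v n} ⊆
            (E ⌊(v n) ^ ρ⌋₊ : Set ℤ) := fun t ht => ht.1
        refine ⟨(Finset.finite_toSet _).subset hsub, ?_⟩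
        have h1 := Set.ncard_le_ncard hsub (Finset.finite_toSet _)
        rw [Set.ncard_coe_finset] at h1
        have h3 : ((⌊(v n) ^ ρ⌋₊ : ℕ) : ℝ) ≤ (v n) ^ ρ := Nat.floor_le (Real.rpow_nonneg hn0 _)
        have h4 : (1 : ℝ) ≤ (v n) ^ (2 * ρ + ε) := Real.one_le_rpow hn1 (by positivity)
        have h5 : (v n) ^ (2 * ρ) ≤ (v n) ^ (2 * ρ + ε) := Real.rpow_le_rpow_of_exponent_le hn1 (by linarith)
        have h6 : (((⌊(v n) ^ ρ⌋₊ : ℕ) : ℝ)) ^ 2 ≤ (v n) ^ (2 * ρ) := by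
          calc (((⌊(v n) ^ ρ⌋₊ : ℕ) : ℝ)) ^ 2 ≤ ((v n) ^ ρ) ^ 2 := pow_le_pow_left₀ (Nat.cast_nonneg _) h3 2
            _ = (v n) ^ (2 * ρ) := by
                rw [← Real.rpow_natCast, ← Real.rpow_mul hn0]
                congr 1
                push_cast
                ring
        calc ({t : ℤ | t ∈ (E ⌊(v n) ^ ρ⌋₊ : Set ℤ) ∧ ‖(t : ℝ) - c j n‖ ≤ ((A : ℝ) + 1) * v n}.ncard : ℝ)
            ≤ ((E ⌊(v n) ^ ρ⌋₊).card : ℝ) := by exact_mod_cast h1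
          _ ≤ ((m * ⌊(v n) ^ ρ⌋₊ ^ 2 + C₀ : ℕ) : ℝ) := by exact_mod_cast hE1 _
          _ = (m : ℝ) * (((⌊(v n) ^ ρ⌋₊ : ℕ) : ℝ)) ^ 2 + C₀ := by push_cast; ring
          _ ≤ (m : ℝ) * (v n) ^ (2 * ρ + ε) + C₀ * (v n) ^ (2 * ρ + ε) := by
              refine add_le_add (mul_le_mul_of_nonneg_left (h6.trans h5) (Nat.cast_nonneg _)) ?_
              exact le_mul_of_one_le_right (Nat.cast_nonneg _) h4
          _ = ((m : ℝ) + C₀) * (v n) ^ (2 * ρ + ε) := by ring)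
    refine ⟨F, hF, fun _ α hα j => ?_⟩
    obtain ⟨n₀, hn⟩ := h α hα j
    refine ⟨n₀, fun n hn1 t ht => ?_⟩
    have hnot : t ∉ E ⌊(v n) ^ ρ⌋₊ := by
      intro hmem
      refine absurd ?_ (not_le.2 (hn n hn1 t hmem))
      rw [smul_eq_mul, Real.norm_eq_abs, mul_comm (v n)]
      have e : (t : ℝ) - c j n - α * v n = (t : ℝ) - (c j n + α * v n) := by ring
      rw [e]
      exact ht
    exact hE2 _ t hnot
  have := countable_families
  choose F hF1 hF2 using hone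
  have hdim : dimH (⋃ q, F q) ≤ ENNReal.ofReal ((2 * ρ + τ) / (1 - θ)) := by
    rw [dimH_iUnion]
    exact iSup_le hF1
  refine ⟨⋃ q, F q, hdim, fun hc => ?_, fun α hα j r P hP => ?_⟩
  · refine Pool.Agent.V11326.WO1.null hdim ?_
    rw [div_lt_one (by linarith)]
    linarith
  · exact hF2 ⟨r, P⟩ hP α (fun h => hα (Set.mem_iUnion.2 ⟨⟨r, P⟩, h⟩)) j

/-- **Main result.** -/
theorem result :
    (∀ (c : ℕ → ℕ → ℤ) (v : ℕ → ℝ) (τ ρ θ : ℝ), (∀ n, 1 ≤ v n) → 0 ≤ τ → ExpLe v τ → 0 ≤ ρ → θ < 1 →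
      ∃ F : Set ℝ, dimH F ≤ ENNReal.ofReal ((2 * ρ + τ) / (1 - θ)) ∧ (2 * ρ + τ + θ < 1 → volume F = 0) ∧
        ∀ α : ℝ, α ∉ F → ∀ (j r : ℕ) (P : Fin r → ℤ[X]), Family P → ∃ n₀ : ℕ, ∀ n : ℕ, n₀ ≤ n → ∀ t : ℤ,
          |(t : ℝ) - (c j n + α * v n)| ≤ (v n) ^ θ → Good P t ⌊(v n) ^ ρ⌋₊) ∧
    (∀ (c : ℕ → ℕ → ℤ) (v : ℕ → ℝ), (∀ n, 1 ≤ v n) → ExpLe v 0 →
      ∀ᵐ α : ℝ, ∀ ρ θ : ℝ, 0 ≤ ρ → 2 * ρ + θ < 1 → ∀ (j r : ℕ) (P : Fin r → ℤ[X]), Family P →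
        ∃ n₀ : ℕ, ∀ n : ℕ, n₀ ≤ n → ∀ t : ℤ,
          |(t : ℝ) - (c j n + α * v n)| ≤ (v n) ^ θ → Good P t ⌊(v n) ^ ρ⌋₊) := by
  refine ⟨fun c v τ ρ θ hv1 hτ hv hρ hθ => windows c v τ ρ θ hv1 hτ hv hρ hθ, fun c v hv1 hv => ?_⟩
  have hall : ∀ x : ℚ × ℚ, ∀ᵐ α : ℝ, 0 ≤ x.1 → 2 * (x.1 : ℝ) + x.2 < 1 → ∀ (j r : ℕ) (P : Fin r → ℤ[X]), Family P →
      ∃ n₀ : ℕ, ∀ n : ℕ, n₀ ≤ n → ∀ t : ℤ,
        |(t : ℝ) - (c j n + α * v n)| ≤ (v n) ^ (x.2 : ℝ) → Good P t ⌊(v n) ^ (x.1 : ℝ)⌋₊ := by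
    rintro ⟨ρ, θ⟩
    by_cases h : 0 ≤ ρ ∧ 2 * (ρ : ℝ) + θ < 1
    · have hρ : (0 : ℝ) ≤ ρ := by exact_mod_cast h.1
      obtain ⟨F, -, hF0, h1⟩ := windows c v 0 ρ θ hv1 le_rfl hv hρ (by linarith [h.2])
      have hF0' := hF0 (by linarith [h.2])
      filter_upwards [compl_mem_ae_iff.2 hF0'] with α hα _ _
      exact h1 α hα
    · exact Eventually.of_forall fun α h1 h2 => absurd ⟨h1, h2⟩ h
  rw [← ae_all_iff] at hall
  filter_upwards [hall] with α hα ρ θ hρ hρθ j r P hP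
  obtain ⟨ρ', h1, h2⟩ := exists_rat_btwn (show ρ < ρ + (1 - 2 * ρ - θ) / 4 by linarith)
  obtain ⟨θ', h3, h4⟩ := exists_rat_btwn (show θ < θ + (1 - 2 * ρ - θ) / 4 by linarith)
  have hρ' : (0 : ℝ) ≤ ρ' := by linarith
  obtain ⟨n₀, hn⟩ := hα (ρ', θ') (by exact_mod_cast hρ') (by simp only; linarith) j r P hP
  refine ⟨n₀, fun n hn1 t ht => (hn n hn1 t (ht.trans ?_)).mono ?_⟩
  · exact Real.rpow_le_rpow_of_exponent_le (hv1 n) h3.le
  · exact Nat.floor_le_floor (Real.rpow_le_rpow_of_exponent_le (hv1 n) h1.le)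

end Pool.Agent.Results.MP_59f3ad_nt.AllMembersInWindows
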