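import Mathlib
import Pool.Agent.TH350.SC.Defs
import Pool.Agent.TH350.SC.Fin

/-!
# Schneider's conjecture over `ℚ`: all small residue classes of twists for 100% of the primes

For `L = ℚ` and an odd prime `p` Schneider's conjecture for `ℤ_p(r)`, `r ≥ 2`, is trivial for even `r`
(`H¹(ℤ[1/p], ℤ_p(r))` is finite by Soulé's theorem), and for odd `r ≥ 3` it says that
`ζ_p(r) = L_p(r, ω^{1-r}) ≠ 0` (main conjecture / Coates-Wiles).  These translations are classical and
they are not formalised here.  Here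
`ζ_p(r) = 1/(r-1) · lim_N p^{-N} ∑_{0 < a < p^N, p ∤ a} a^{1-r}`.

We prove, for 100% of the primes `p` (proportion among the primes up to `X` tending to `1`):

* for every `m ≥ 1` with `m ψ(p) ≤ √(p / log p)` and EVERY `r ≥ 2` with `r ≡ 1 - 2m (mod p - 1)` the value
  `ζ_p(r)` exists and is a `p`-adic unit; in particular it is not `0`;
* for all `K` the number of the classes `m ≤ K`, `m ≤ (p-3)/2`, for which this fails is at most
  `ψ(p) (K² log p / p)^{1+η}` (this is `o(K)` up to `K = p^{1-ε}`).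

Here `η > 0` is any constant and `ψ` is any function that tends to infinity.

The starting result `MP_59f3ad_nt.EveryPrimeOverQ` gives, for every prime, at least about `K^{3/4}` good classes
`m ≤ K`.  The proof is in the starting library (`Pool/Agent/TH350/SC/Fin.lean`): Voronoi's argument modulo
powers of `p`, and the starting theorem `MP_a3a416_nt.SparseIrregular` on the numerators of Bernoulli numbers.
-/

set_option autoImplicit false

namespace Pool.Agent.Results.MP_59f3ad_nt.AlmostAllPrimesOverQ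

open Finset Filter Topology

/-- The approximants `1/(r-1) · p^{-N} · ∑_{0 < a < p^N, p ∤ a} a^{1-r}` of `ζ_p(r)`. -/
noncomputable def approx (p : ℕ) [Fact p.Prime] (r N : ℕ) : ℚ_[p] :=
  (∑ a ∈ (range (p ^ N)).filter (fun a => ¬ p ∣ a), ((a : ℚ_[p]) ^ (r - 1))⁻¹) /
    (((r : ℚ_[p]) - 1) * (p : ℚ_[p]) ^ N)

/-- `ζ_p(r)` exists (the approximants converge) and it is a `p`-adic unit. -/
def ZetaIsUnit (p r : ℕ) : Prop :=
  ∀ [Fact p.Prime], ∃ z : ℚ_[p], ‖z‖ = 1 ∧ Tendsto (fun N => approx p r N) atTop (𝓝 z)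

/-- The residue class of `1 - 2m` modulo `p - 1` is good: `ζ_p(r)` is a `p`-adic unit for ALL `r ≥ 2` in it. -/
def Good (p m : ℕ) : Prop := ∀ r : ℕ, 2 ≤ r → p - 1 ∣ r - 1 + 2 * m → ZetaIsUnit p r

/-- The proportion, among the primes `p ≤ X`, of those with the property `P`. -/
noncomputable def proportion (P : ℕ → Prop) (X : ℕ) : ℝ :=
  ({p : ℕ | p ≤ X ∧ p.Prime ∧ P p}.ncard : ℝ) / ({p : ℕ | p ≤ X ∧ p.Prime}.ncard : ℝ)

/-- **Main result.** -/
theorem result (ψ : ℕ → ℝ) (hψ : Tendsto ψ atTop atTop) :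
    Tendsto (proportion fun p => ∀ m : ℕ, 1 ≤ m → 2 * m + 3 ≤ p → (m : ℝ) * ψ p ≤ √(p / Real.log p) → Good p m)
      atTop (𝓝 1) ∧
    ∀ η : ℝ, 0 < η →
      Tendsto (proportion fun p => ∀ K : ℕ, ({m : ℕ | 1 ≤ m ∧ m ≤ K ∧ 2 * m + 3 ≤ p ∧ ¬ Good p m}.ncard : ℝ) ≤
        ψ p * ((K : ℝ) ^ 2 * Real.log p / p) ^ (1 + η)) atTop (𝓝 1) := by
  refine ⟨Pool.Agent.TH350.SC.none_small ψ hψ, fun η hη => ?_⟩
  have h := Pool.Agent.TH350.SC.sparse η hη ψ hψ
  have e : ∀ p K : ℕ, {m : ℕ | 1 ≤ m ∧ m ≤ K ∧ 2 * m + 3 ≤ p ∧ ¬ Good p m}.ncard =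
      Pool.Agent.TH350.SC.badCount p K := by
    intro p K
    classical
    unfold Pool.Agent.TH350.SC.badCount
    rw [← Set.ncard_coe_finset]
    congr 1
    ext m
    simp only [Set.mem_ofPred_eq, Finset.coe_filter, Finset.mem_Icc]
    constructor
    · rintro ⟨h1, h2, h3, h4⟩
      exact ⟨⟨h1, h2⟩, h3, h4⟩
    · rintro ⟨⟨h1, h2⟩, h3, h4⟩
      exact ⟨h1, h2, h3, h4⟩
  simp only [e]
  exact h

end Pool.Agent.Results.MP_59f3ad_nt.AlmostAllPrimesOverQ
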