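import Pool.Agent.Results.MP_59f3ad_nt.AllMembersInWindows
import Pool.Agent.H223.PS.Engine

/-!
# Leopoldt's conjecture at all small primes for ALL members of explicit families close to a typical `ℓ`-adic integer

Let `P_1, ..., P_r` (`r ≥ 1`) be distinct monic polynomials with integral coefficients, each of them linear or quadratic
without real roots, and `F_t = (X - t) P_1 ⋯ P_r - 1`. As in `AllMembersInWindows` the integer `t` is good up to `y` if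
`F_t` is irreducible over `ℚ` and the number field generated by a root has exactly `1 + #{linear P_i}` real and
`#{quadratic P_i}` complex places and satisfies Leopoldt's conjecture (Schneider's for `r = 1`) at all primes `p ≤ y`.

1. Let `ℓ` be a prime, `ρ ≥ 0`, `σ > 0`. For all `ℓ`-adic integers `α` outside a set of Hausdorff dimension at most
   `2 ρ / σ` and all such families `P`, ALL but finitely many natural numbers `t` with `|t - α|_ℓ ≤ t ^ (-σ)`, that is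
   `t ≡ α` modulo the powers `ℓ ^ f ≤ t ^ σ` and the next one, are good up to `t ^ ρ`. (For `σ < 1` there are
   infinitely many such `t` for each `α`.)
2. For all `α` outside a set of Hausdorff dimension ZERO, all `σ > 0` and a suitable `ρ > 0` (depending on `α`, `σ` only) this
   holds for all families.

The proof combines the starting result `AllPrimesUpToABound` (at most `m y ^ 2 + C₀` of ALL integers `t` are not good up
to `y`) with the covering argument of helper223 for `ℓ`-adic neighbourhoods.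
-/

set_option autoImplicit false

namespace Pool.Agent.Results.MP_59f3ad_nt.MembersInResidueClasses

open Polynomial Pool.Agent.Results.MP_59f3ad_nt.AllMembersInWindows

theorem near (ℓ : ℕ) [Fact ℓ.Prime] (ρ σ : ℝ) (hρ : 0 ≤ ρ) (hσ : 0 < σ) :
    ∃ E : Set ℤ_[ℓ], dimH E ≤ ENNReal.ofReal (2 * ρ / σ) ∧ ∀ α ∉ E, ∀ (r : ℕ) (P : Fin r → ℤ[X]), Family P →
      ∃ T₀ : ℝ, ∀ t : ℕ, T₀ ≤ t → ‖(t : ℤ_[ℓ]) - α‖ ≤ (t : ℝ) ^ (-σ) → Good P (t : ℤ) ⌊(t : ℝ) ^ ρ⌋₊ := by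
  have := countable_families
  have : Nonempty (Σ r : ℕ, (Fin r → ℤ[X])) := ⟨⟨0, fun _ => 0⟩⟩
  obtain ⟨f, hf⟩ := exists_surjective_nat (Σ r : ℕ, (Fin r → ℤ[X]))
  obtain ⟨E, hE, h⟩ := Pool.Agent.H223.PS.padic_nat ℓ
    (fun j => {t : ℕ | Family (f j).2 ∧ ¬ Good (f j).2 (t : ℤ) ⌊(t : ℝ) ^ ρ⌋₊}) (s := 2 * ρ) (by positivity) (by
      intro j ε hε
      obtain ⟨r, P⟩ : ∃ q : (Σ r : ℕ, (Fin r → ℤ[X])), q = f j := ⟨_, rfl⟩
      generalize f j = q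
      obtain ⟨r, P⟩ := q
      by_cases hP : Family P
      swap
      · refine ⟨0, fun X _ => ?_⟩
        have h0 : {t : ℕ | t ∈ {t : ℕ | Family P ∧ ¬ Good P (t : ℤ) ⌊(t : ℝ) ^ ρ⌋₊} ∧ (t : ℝ) ≤ X} = ∅ := by
          ext t
          constructor
          · rintro ⟨⟨h1, -⟩, -⟩
            exact hP h1
          · intro h1
            exact absurd h1 (Set.notMem_empty _)
        rw [h0]
        refine ⟨Set.finite_empty, ?_⟩
        rw [Set.ncard_empty, Nat.cast_zero, zero_mul]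
      obtain ⟨C₀, -, h2⟩ := AllPrimesUpToABound.result r P hP.1 hP.2.1 hP.2.2.1 hP.2.2.2
      choose E hE1 hE2 using h2
      obtain ⟨m, hm⟩ : ∃ m : ℕ, m = ∑ i, (P i).natDegree := ⟨_, rfl⟩
      rw [← hm] at hE1
      refine ⟨(m : ℝ) + C₀, fun X hX => ?_⟩
      have hX0 : 0 ≤ X := by linarith
      have hmap : ∀ t ∈ {t : ℕ | t ∈ {t : ℕ | Family P ∧ ¬ Good P (t : ℤ) ⌊(t : ℝ) ^ ρ⌋₊} ∧ (t : ℝ) ≤ X},
          ((t : ℕ) : ℤ) ∈ (E ⌊X ^ ρ⌋₊ : Set ℤ) := by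
        rintro t ⟨⟨-, h1⟩, h3⟩
        by_contra hmem
        refine h1 ((show Good P (t : ℤ) ⌊X ^ ρ⌋₊ from hE2 _ _ hmem).mono ?_)
        exact Nat.floor_le_floor (Real.rpow_le_rpow (Nat.cast_nonneg _) h3 hρ)
      have hfin : {t : ℕ | t ∈ {t : ℕ | Family P ∧ ¬ Good P (t : ℤ) ⌊(t : ℝ) ^ ρ⌋₊} ∧ (t : ℝ) ≤ X}.Finite :=
        (Set.finite_Iic ⌊X⌋₊).subset fun t ht => Set.mem_Iic.2 (Nat.le_floor ht.2)
      refine ⟨hfin, ?_⟩
      have h1 : {t : ℕ | t ∈ {t : ℕ | Family P ∧ ¬ Good P (t : ℤ) ⌊(t : ℝ) ^ ρ⌋₊} ∧ (t : ℝ) ≤ X}.ncard ≤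
          (E ⌊X ^ ρ⌋₊ : Set ℤ).ncard :=
        Set.ncard_le_ncard_of_injOn (fun t : ℕ => (t : ℤ)) hmap (fun a _ b _ hab => Nat.cast_injective (R := ℤ) hab)
          (Finset.finite_toSet _)
      rw [Set.ncard_coe_finset] at h1
      have h3 : ((⌊X ^ ρ⌋₊ : ℕ) : ℝ) ≤ X ^ ρ := Nat.floor_le (Real.rpow_nonneg hX0 _)
      have h4 : (1 : ℝ) ≤ X ^ (2 * ρ + ε) := Real.one_le_rpow hX (by positivity)
      have h5 : X ^ (2 * ρ) ≤ X ^ (2 * ρ + ε) := Real.rpow_le_rpow_of_exponent_le hX (by linarith)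
      have h6 : (((⌊X ^ ρ⌋₊ : ℕ) : ℝ)) ^ 2 ≤ X ^ (2 * ρ) := by
        calc (((⌊X ^ ρ⌋₊ : ℕ) : ℝ)) ^ 2 ≤ (X ^ ρ) ^ 2 := pow_le_pow_left₀ (Nat.cast_nonneg _) h3 2
          _ = X ^ (2 * ρ) := by
              rw [← Real.rpow_natCast, ← Real.rpow_mul hX0]
              congr 1
              push_cast
              ring
      calc ({t : ℕ | t ∈ {t : ℕ | Family P ∧ ¬ Good P (t : ℤ) ⌊(t : ℝ) ^ ρ⌋₊} ∧ (t : ℝ) ≤ X}.ncard : ℝ)
          ≤ ((E ⌊X ^ ρ⌋₊).card : ℝ) := by exact_mod_cast h1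
        _ ≤ ((m * ⌊X ^ ρ⌋₊ ^ 2 + C₀ : ℕ) : ℝ) := by exact_mod_cast hE1 _
        _ = (m : ℝ) * (((⌊X ^ ρ⌋₊ : ℕ) : ℝ)) ^ 2 + C₀ := by push_cast; ring
        _ ≤ (m : ℝ) * X ^ (2 * ρ + ε) + C₀ * X ^ (2 * ρ + ε) := by
            refine add_le_add (mul_le_mul_of_nonneg_left (h6.trans h5) (Nat.cast_nonneg _)) ?_
            exact le_mul_of_one_le_right (Nat.cast_nonneg _) h4
        _ = ((m : ℝ) + C₀) * X ^ (2 * ρ + ε) := by ring) hσ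
  refine ⟨E, hE, fun α hα r P hP => ?_⟩
  obtain ⟨j, hj⟩ := hf ⟨r, P⟩
  obtain ⟨T₀, hT⟩ := h α hα j
  refine ⟨T₀, fun t ht hn => ?_⟩
  by_contra hcon
  refine hT t ht t le_rfl hn ?_
  rw [hj]
  exact ⟨hP, hcon⟩

/-- **Main result.** -/
theorem result (ℓ : ℕ) [Fact ℓ.Prime] :
    (∀ ρ σ : ℝ, 0 ≤ ρ → 0 < σ → ∃ E : Set ℤ_[ℓ], dimH E ≤ ENNReal.ofReal (2 * ρ / σ) ∧ ∀ α ∉ E,
      ∀ (r : ℕ) (P : Fin r → ℤ[X]), Family P → ∃ T₀ : ℝ, ∀ t : ℕ, T₀ ≤ t →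
        ‖(t : ℤ_[ℓ]) - α‖ ≤ (t : ℝ) ^ (-σ) → Good P (t : ℤ) ⌊(t : ℝ) ^ ρ⌋₊) ∧
    (∃ E : Set ℤ_[ℓ], dimH E = 0 ∧ ∀ α ∉ E, ∀ σ : ℝ, 0 < σ → ∃ ρ : ℝ, 0 < ρ ∧
      ∀ (r : ℕ) (P : Fin r → ℤ[X]), Family P → ∃ T₀ : ℝ, ∀ t : ℕ, T₀ ≤ t →
        ‖(t : ℤ_[ℓ]) - α‖ ≤ (t : ℝ) ^ (-σ) → Good P (t : ℤ) ⌊(t : ℝ) ^ ρ⌋₊) := by
  refine ⟨fun ρ σ hρ hσ => near ℓ ρ σ hρ hσ, ?_⟩
  have h := fun i j : ℕ => near ℓ ((1 / ((i : ℝ) + 1)) / (2 * ((j : ℝ) + 1))) (1 / ((i : ℝ) + 1)) (by positivity)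
    (by positivity)
  choose E hE1 hE2 using h
  refine ⟨⋃ i, ⋂ j, E i j, ?_, fun α hα σ hσ => ?_⟩
  · rw [dimH_iUnion]
    refine le_antisymm (iSup_le fun i => ?_) zero_le
    refine ENNReal.le_of_forall_pos_le_add fun ε hε _ => ?_
    rw [zero_add]
    obtain ⟨j, hj⟩ := exists_nat_one_div_lt (show (0 : ℝ) < ε by exact_mod_cast hε)
    calc dimH (⋂ j, E i j) ≤ dimH (E i j) := dimH_mono (Set.iInter_subset _ j)
      _ ≤ ENNReal.ofReal (2 * ((1 / ((i : ℝ) + 1)) / (2 * ((j : ℝ) + 1))) / (1 / ((i : ℝ) + 1))) := hE1 i j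
      _ = ENNReal.ofReal (1 / ((j : ℝ) + 1)) := by
          congr 1
          field_simp
      _ ≤ ENNReal.ofReal ε := ENNReal.ofReal_le_ofReal hj.le
      _ = ε := ENNReal.ofReal_coe_nnreal
  · obtain ⟨i, hi⟩ := exists_nat_one_div_lt hσ
    have h1 : α ∉ ⋂ j, E i j := fun h => hα (Set.mem_iUnion.2 ⟨i, h⟩)
    rw [Set.mem_iInter, not_forall] at h1
    obtain ⟨j, hj⟩ := h1
    refine ⟨(1 / ((i : ℝ) + 1)) / (2 * ((j : ℝ) + 1)), by positivity, fun r P hP => ?_⟩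
    obtain ⟨T₀, hT⟩ := hE2 i j α hj r P hP
    refine ⟨max T₀ 1, fun t ht hn => hT t ((le_max_left _ _).trans ht) (hn.trans ?_)⟩
    exact Real.rpow_le_rpow_of_exponent_le ((le_max_right _ _).trans ht) (by linarith)

end Pool.Agent.Results.MP_59f3ad_nt.MembersInResidueClasses
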